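import Pool.Agent.Lib.MP_defcf3_al.BR.StageI

/-!
Project BR7, module CYCALG: cyclic algebras from crossed products.
-/

namespace BR7.H32

universe u v

open Module

theorem carry7_cocycle (a b c : ZMod 7) :
    carry 7 a b + carry 7 (a + b) c = carry 7 b c + carry 7 a (b + c) := by
  unfold carry
  rw [ZMod.val_add, ZMod.val_add]
  have h1 := ZMod.val_lt a
  have h2 := ZMod.val_lt b
  have h3 := ZMod.val_lt c
  omega

theorem cycalg (hD : DescStatement.{u}) : CycAlgStatement.{u} := by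
  classical
  intro F Ω _ _ _ _ a χ ha hχ hlc hne
  let φ : (Ω ≃ₐ[F] Ω) →* Multiplicative (ZMod 7) :=
    MonoidHom.mk' (fun g => Multiplicative.ofAdd (χ g)) (fun g h => by rw [hχ, ofAdd_add])
  have hφ : ∀ g, φ g = Multiplicative.ofAdd (χ g) := fun g => rfl
  let N : Subgroup (Ω ≃ₐ[F] Ω) := φ.ker
  have hmem : ∀ g, g ∈ N ↔ χ g = 0 := by
    intro g
    rw [MonoidHom.mem_ker, hφ, ofAdd_eq_one]
  have hopen : IsOpen (N : Set (Ω ≃ₐ[F] Ω)) := by
    have h1 : (N : Set (Ω ≃ₐ[F] Ω)) = {g | χ g = 0} := by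
      ext g; exact hmem g
    rw [h1]
    exact hlc.isOpen_fiber 0
  have hnormal : N.Normal := inferInstance
  have hidx : N.index = 7 := by
    rw [Subgroup.index_ker]
    have hcard : Nat.card (Multiplicative (ZMod 7)) = 7 := by
      rw [Nat.card_eq_fintype_card, Fintype.card_multiplicative, ZMod.card]
    haveI : Fact (Nat.Prime 7) := ⟨by norm_num⟩
    have h1 := Subgroup.card_subgroup_dvd_card φ.range
    rw [hcard] at h1
    rcases (Nat.dvd_prime (by norm_num : Nat.Prime 7)).mp h1 with h2 | h2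
    · exfalso
      obtain ⟨g, hg⟩ := hne
      have h3 : φ.range = ⊥ := Subgroup.card_eq_one.mp h2
      have h4 : φ g ∈ φ.range := ⟨g, rfl⟩
      rw [h3, Subgroup.mem_bot, hφ, ofAdd_eq_one] at h4
      exact hg h4
    · exact h2
  have hcup : ∀ g h, cup 7 a χ g h = a ^ carry 7 (χ g) (χ h) := fun g h => rfl
  have hf : cup 7 a χ ∈ Z2 (Ω ≃ₐ[F] Ω) Ωˣ := by
    refine ⟨?_, fun g h k => ?_⟩
    · have h1 : IsLocallyConstant (fun p : (Ω ≃ₐ[F] Ω) × (Ω ≃ₐ[F] Ω) => (χ p.1, χ p.2)) :=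
        (hlc.comp_continuous continuous_fst).prodMk (hlc.comp_continuous continuous_snd)
      exact h1.comp (fun q => a ^ carry 7 q.1 q.2)
    · rw [hcup, hcup, hcup, hcup, smul_pow', ha g, ← pow_add, ← pow_add, hχ, hχ, carry7_cocycle]
  have hN : ∀ g h, ∀ n ∈ N, cup 7 a χ (g * n) h = cup 7 a χ g h ∧
      cup 7 a χ g (h * n) = cup 7 a χ g h ∧ n • cup 7 a χ g h = cup 7 a χ g h := by
    intro g h n hn
    have h0 := (hmem n).mp hn
    refine ⟨?_, ?_, ?_⟩
    · rw [hcup, hcup, hχ, h0, add_zero]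
    · rw [hcup, hcup, hχ, h0, add_zero]
    · rw [hcup, smul_pow', ha n]
  obtain ⟨A, _, _, h1, h2⟩ := hD F Ω (cup 7 a χ) hf N hnormal hopen hN
  rw [hidx] at h1
  have hclosed : IsClosed (N : Set (Ω ≃ₐ[F] Ω)) := Subgroup.isClosed_of_isOpen N hopen
  have hfix : (IntermediateField.fixedField N).fixingSubgroup = N :=
    InfiniteGalois.fixingSubgroup_fixedField (⟨N, hclosed⟩ : ClosedSubgroup (Ω ≃ₐ[F] Ω))
  refine ⟨A, inferInstance, inferInstance, h1, IntermediateField.fixedField N, inferInstance,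
    inferInstance, ?_, ?_, h2⟩
  · rw [← InfiniteGalois.normal_iff_isGalois, hfix]
    exact hnormal
  · rw [IntermediateField.finrank_eq_fixingSubgroup_index, hfix, hidx]

end BR7.H32
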