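import Pool.Agent.Lib.MP_defcf3_al.BR.StageI

/-!
Project BR7, module DESC: crossed products.
-/

namespace BR7.H32

universe u v

open Module

section
variable {F Ω : Type u} [Field F] [Field Ω] [Algebra F Ω]
  (f : (Ω ≃ₐ[F] Ω) → (Ω ≃ₐ[F] Ω) → Ωˣ) (N : Subgroup (Ω ≃ₐ[F] Ω))
  {n : Type} [Fintype n] [DecidableEq n] (e : n ≃ (Ω ≃ₐ[F] Ω) ⧸ N)

/-- The monomial matrix of g. -/
noncomputable def Um (g : Ω ≃ₐ[F] Ω) : Matrix n n Ω := by
  classical
  exact Matrix.of fun i j => if e i = g • e j then ((f g (e j).out : Ωˣ) : Ω) else 0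

theorem Um_apply [DecidableEq ((Ω ≃ₐ[F] Ω) ⧸ N)] (g : Ω ≃ₐ[F] Ω) (i j : n) :
    Um f N e g i j = if e i = g • e j then ((f g (e j).out : Ωˣ) : Ω) else 0 := by
  unfold Um
  rw [Matrix.of_apply]
  split_ifs <;> rfl

end

section
variable {F Ω : Type u} [Field F] [Field Ω] [Algebra F Ω]
  {f : (Ω ≃ₐ[F] Ω) → (Ω ≃ₐ[F] Ω) → Ωˣ} {N : Subgroup (Ω ≃ₐ[F] Ω)}
  {n : Type} [Fintype n] [DecidableEq n] {e : n ≃ (Ω ≃ₐ[F] Ω) ⧸ N}

theorem fout (hN : ∀ g h, ∀ n ∈ N, f (g * n) h = f g h ∧ f g (h * n) = f g h ∧ n • f g h = f g h)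
    (g h : Ω ≃ₐ[F] Ω) : f g (QuotientGroup.mk h : (Ω ≃ₐ[F] Ω) ⧸ N).out = f g h := by
  obtain ⟨m, hm⟩ := QuotientGroup.mk_out_eq_mul N h
  rw [hm]
  exact (hN g h m m.2).2.1

theorem coe_smul_unit (g : Ω ≃ₐ[F] Ω) (x : Ωˣ) : ((g • x : Ωˣ) : Ω) = g (x : Ω) := rfl

theorem Um_fac (hf : f ∈ Z2 (Ω ≃ₐ[F] Ω) Ωˣ)
    (hN : ∀ g h, ∀ n ∈ N, f (g * n) h = f g h ∧ f g (h * n) = f g h ∧ n • f g h = f g h)
    (g h : Ω ≃ₐ[F] Ω) : Um f N e g * (Um f N e h).map g = (f g h : Ω) • Um f N e (g * h) := by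
  classical
  ext i k
  rw [Matrix.mul_apply, Matrix.smul_apply, Um_apply]
  rw [Finset.sum_eq_single (e.symm (h • e k))]
  · rw [Matrix.map_apply, Um_apply, Um_apply, Equiv.apply_symm_apply, if_pos rfl, mul_smul]
    by_cases hi : e i = g • h • e k
    · rw [if_pos hi, if_pos hi, smul_eq_mul]
      have h1 : h • e k = (QuotientGroup.mk (h * (e k).out) : (Ω ≃ₐ[F] Ω) ⧸ N) := by
        conv_lhs => rw [← QuotientGroup.out_eq' (e k)]
        rfl
      have h2 : f g (h • e k).out = f g (h * (e k).out) := by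
        rw [h1]; exact fout hN _ _
      rw [h2, ← coe_smul_unit, ← Units.val_mul, ← Units.val_mul, hf.2 g h, mul_comm]
    · rw [if_neg hi, if_neg hi, zero_mul, smul_zero]
  · intro j _ hj
    rw [Matrix.map_apply, Um_apply f N e h, if_neg, map_zero, mul_zero]
    intro h1
    apply hj
    rw [← h1, Equiv.symm_apply_apply]
  · intro h1
    exact absurd (Finset.mem_univ _) h1

theorem Um_one (hf : f ∈ Z2 (Ω ≃ₐ[F] Ω) Ωˣ) : Um f N e 1 = (f 1 1 : Ω) • (1 : Matrix n n Ω) := by
  classical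
  have h1 : ∀ k, f 1 k = f 1 1 := by
    intro k
    have := hf.2 1 1 k
    rw [mul_one, one_mul, one_smul] at this
    exact (mul_right_cancel this).symm
  ext i j
  rw [Um_apply, h1, one_smul, Matrix.smul_apply, Matrix.one_apply]
  by_cases h : i = j
  · rw [if_pos (congrArg e h), if_pos h, smul_eq_mul, mul_one]
  · rw [if_neg (fun h' => h (e.injective h')), if_neg h, smul_zero]

theorem Um_unit (hf : f ∈ Z2 (Ω ≃ₐ[F] Ω) Ωˣ)
    (hN : ∀ g h, ∀ n ∈ N, f (g * n) h = f g h ∧ f g (h * n) = f g h ∧ n • f g h = f g h)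
    (g : Ω ≃ₐ[F] Ω) : IsUnit (Um f N e g) := by
  have h1 := Um_fac (e := e) hf hN g g⁻¹
  rw [mul_inv_cancel, Um_one hf, smul_smul, ← Units.val_mul] at h1
  have h2 : Um f N e g * ((((f g g⁻¹ * f 1 1)⁻¹ : Ωˣ) : Ω) • (Um f N e g⁻¹).map g) = 1 := by
    rw [mul_smul_comm, h1, smul_smul, Units.inv_mul, one_smul]
  exact ⟨⟨_, _, h2, mul_eq_one_comm.mp h2⟩, rfl⟩

theorem Um_mul (hn : N.Normal)
    (hN : ∀ g h, ∀ n ∈ N, f (g * n) h = f g h ∧ f g (h * n) = f g h ∧ n • f g h = f g h)
    (g m : Ω ≃ₐ[F] Ω) (hm : m ∈ N) : Um f N e (g * m) = Um f N e g := by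
  classical
  ext i j
  rw [Um_apply, Um_apply, (hN g _ m hm).1, mul_smul]
  have h1 : m • e j = e j := by
    conv_lhs => rw [← QuotientGroup.out_eq' (e j)]
    conv_rhs => rw [← QuotientGroup.out_eq' (e j)]
    change (QuotientGroup.mk (m * (e j).out) : (Ω ≃ₐ[F] Ω) ⧸ N) = _
    rw [QuotientGroup.eq]
    have h2 := hn.conj_mem m⁻¹ (inv_mem hm) ((e j).out)⁻¹
    rw [inv_inv] at h2
    rw [mul_inv_rev]
    exact h2
  rw [h1]

end

theorem lc_apply {F Ω : Type u} [Field F] [Field Ω] [Algebra F Ω] [IsGalois F Ω] (x : Ω) :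
    IsLocallyConstant (fun g : Ω ≃ₐ[F] Ω => g x) := by
  have h1 : FiniteDimensional F (IntermediateField.adjoin F {x}) :=
    IntermediateField.adjoin.finiteDimensional (Algebra.IsIntegral.isIntegral (R := F) x)
  have h2 := IntermediateField.fixingSubgroup_isOpen (IntermediateField.adjoin F {x})
  rw [IsLocallyConstant.iff_exists_open]
  intro g
  refine ⟨(fun h => g⁻¹ * h) ⁻¹' ((IntermediateField.adjoin F {x}).fixingSubgroup : Set (Ω ≃ₐ[F] Ω)),
    h2.preimage (by fun_prop), ?_, ?_⟩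
  · simp only [Set.mem_preimage, inv_mul_cancel, SetLike.mem_coe]
    exact Subgroup.one_mem _
  · intro h hh
    have h3 := (IntermediateField.mem_fixingSubgroup_iff _ _).1 hh x
      (IntermediateField.mem_adjoin_simple_self F x)
    have h4 : h x = g ((g⁻¹ * h) x) := by
      rw [← AlgEquiv.mul_apply, mul_inv_cancel_left]
    rw [h4, h3]

theorem lc_map {F Ω : Type u} [Field F] [Field Ω] [Algebra F Ω] [IsGalois F Ω] {n : Type v} [Finite n]
    (v : Matrix n n Ω) :
    IsLocallyConstant (fun g : Ω ≃ₐ[F] Ω => v.map g) := by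
  rw [IsLocallyConstant.iff_eventually_eq]
  intro g
  have h1 : ∀ i j, ∀ᶠ h in nhds g, h (v i j) = g (v i j) := fun i j =>
    (lc_apply (v i j)).eventually_eq g
  have h2 : ∀ᶠ h in nhds g, ∀ i j, h (v i j) = g (v i j) :=
    Filter.eventually_all.mpr fun i => Filter.eventually_all.mpr fun j => h1 i j
  filter_upwards [h2] with h hh
  ext i j
  exact hh i j

theorem desc (hG : GalDescStatement.{u, u}) : DescStatement.{u} := by
  classical
  intro F Ω _ _ _ _ f hf N hn hopen hN
  haveI hfin : Finite ((Ω ≃ₐ[F] Ω) ⧸ N) := Subgroup.quotient_finite_of_isOpen N hopen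
  let e : Fin N.index ≃ (Ω ≃ₐ[F] Ω) ⧸ N := (Finite.equivFin ((Ω ≃ₐ[F] Ω) ⧸ N)).symm
  let U : (Ω ≃ₐ[F] Ω) → Matrix (Fin N.index) (Fin N.index) Ω := Um f N e
  have hfac : ∀ g h, U g * (U h).map g = (f g h : Ω) • U (g * h) := Um_fac hf hN
  have hone : U 1 = (f 1 1 : Ω) • (1 : Matrix (Fin N.index) (Fin N.index) Ω) := Um_one hf
  let u : (Ω ≃ₐ[F] Ω) → (Matrix (Fin N.index) (Fin N.index) Ω)ˣ := fun g =>
    (Um_unit (e := e) hf hN g).unit
  have hu : ∀ g, (u g : Matrix (Fin N.index) (Fin N.index) Ω) = U g := fun g => rfl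
  have hmul : ∀ g m, m ∈ N → U (g * m) = U g := fun g m hm => Um_mul hn hN g m hm
  have hlc : IsLocallyConstant u := by
    rw [IsLocallyConstant.iff_exists_open]
    intro g
    refine ⟨(fun h => g⁻¹ * h) ⁻¹' (N : Set (Ω ≃ₐ[F] Ω)), hopen.preimage (by fun_prop), ?_, ?_⟩
    · simp only [Set.mem_preimage, inv_mul_cancel, SetLike.mem_coe]
      exact N.one_mem
    · intro h hh
      ext1
      rw [hu, hu]
      have h1 := hmul g (g⁻¹ * h) hh
      rwa [mul_inv_cancel_left] at h1
  have hmm : ∀ (g : Ω ≃ₐ[F] Ω) (M M' : Matrix (Fin N.index) (Fin N.index) Ω),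
      (M * M').map g = M.map g * M'.map g := by
    intro g M M'
    have := map_mul g.mapMatrix M M'
    simpa only [AlgEquiv.mapMatrix_apply] using this
  -- the semilinear action
  let ρ : (Ω ≃ₐ[F] Ω) → Matrix (Fin N.index) (Fin N.index) Ω →
      Matrix (Fin N.index) (Fin N.index) Ω := fun g M =>
    (u g : Matrix (Fin N.index) (Fin N.index) Ω) * M.map g *
      (↑(u g)⁻¹ : Matrix (Fin N.index) (Fin N.index) Ω)
  have hρeq : ∀ g M X, ρ g M = X ↔ U g * M.map g = X * U g := by
    intro g M X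
    change U g * M.map g * (↑(u g)⁻¹ : Matrix (Fin N.index) (Fin N.index) Ω) = X ↔ _
    rw [Units.mul_inv_eq_iff_eq_mul, hu]
  have hρadd : ∀ g v w, ρ g (v + w) = ρ g v + ρ g w := by
    intro g v w
    change _ * _ * _ = _ * _ * _ + _ * _ * _
    rw [Matrix.map_add g (map_add g), mul_add, add_mul]
  have hρsmul : ∀ g (c : Ω) v, ρ g (c • v) = g c • ρ g v := by
    intro g c v
    change _ * _ * _ = _ • (_ * _ * _)
    have h1 : (c • v).map g = g c • v.map g := by
      ext i j
      simp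
    rw [h1, mul_smul_comm, smul_mul_assoc]
  have hρmul : ∀ g h v, ρ (g * h) v = ρ g (ρ h v) := by
    intro g h v
    rw [hρeq]
    have h1 : U h * v.map h = ρ h v * U h := (hρeq h v _).mp rfl
    have h2 : U g * (ρ h v).map g = ρ g (ρ h v) * U g := (hρeq g _ _).mp rfl
    have h3 : (f g h : Ω) • (U (g * h) * v.map (g * h)) = (f g h : Ω) • (ρ g (ρ h v) * U (g * h)) := by
      rw [← smul_mul_assoc, ← hfac, ← mul_smul_comm, ← hfac]
      have h4 : v.map (g * h) = (v.map h).map g := by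
        ext i j; simp
      rw [h4, mul_assoc, ← hmm, h1, hmm, ← mul_assoc, h2, mul_assoc]
    have h5 := congrArg (fun M => ((f g h)⁻¹ : Ωˣ).val • M) h3
    simpa only [smul_smul, Units.inv_mul, one_smul] using h5
  have hρone : ∀ v, ρ 1 v = v := by
    intro v
    rw [hρeq, hone, smul_mul_assoc, one_mul, mul_smul_comm, mul_one]
    congr 1
  have hρopen : ∀ v, IsOpen {g | ρ g v = v} := by
    intro v
    have h0 : IsLocallyConstant (fun g : Ω ≃ₐ[F] Ω => v.map g) := lc_map v
    have h1 : IsLocallyConstant (fun g => ρ g v) := by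
      have := (hlc.prodMk h0).comp (fun p => (p.1 : Matrix (Fin N.index) (Fin N.index) Ω) * p.2 *
        (↑(p.1)⁻¹ : Matrix (Fin N.index) (Fin N.index) Ω))
      exact this
    exact h1.isOpen_fiber v
  obtain ⟨b, hb1, hb2⟩ := hG F Ω (Matrix (Fin N.index) (Fin N.index) Ω) ρ hρadd hρsmul hρmul hρone hρopen
  -- the algebra
  let A : Subalgebra F (Matrix (Fin N.index) (Fin N.index) Ω) :=
    { carrier := {M | ∀ g, U g * M.map g = M * U g}
      mul_mem' := by
        intro M M' h h' g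
        rw [hmm, ← mul_assoc, h g, mul_assoc, h' g, mul_assoc]
      add_mem' := by
        intro M M' h h' g
        rw [Matrix.map_add g (map_add g), mul_add, add_mul, h g, h' g]
      algebraMap_mem' := by
        intro r g
        have h1 : (algebraMap F (Matrix (Fin N.index) (Fin N.index) Ω) r).map g =
            algebraMap F (Matrix (Fin N.index) (Fin N.index) Ω) r := by
          have := (g.mapMatrix (m := Fin N.index)).commutes r
          rwa [AlgEquiv.mapMatrix_apply] at this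
        rw [h1, Algebra.commutes] }
  have hAmem : ∀ M, M ∈ A ↔ ∀ g, ρ g M = M := by
    intro M
    constructor
    · intro h g
      rw [hρeq]; exact h g
    · intro h g
      exact (hρeq g M M).mp (h g)
  have hinj : Function.Injective (fun r : F => r • (1 : Ω)) := by
    intro r s h
    simp only [Algebra.smul_def, mul_one] at h
    exact (algebraMap F Ω).injective h
  let b' : Fin (finrank Ω (Matrix (Fin N.index) (Fin N.index) Ω)) → A :=
    fun i => ⟨b i, (hAmem _).mpr fun g => hb1 g i⟩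
  have hli : LinearIndependent F b' := by
    have h1 : LinearIndependent F (fun i => b i) := b.linearIndependent.restrict_scalars hinj
    exact LinearIndependent.of_comp A.val.toLinearMap h1
  have hsp : ⊤ ≤ Submodule.span F (Set.range b') := by
    rintro ⟨M, hM⟩ _
    have h1 : ∀ i, ∃ c : F, b.repr M i = algebraMap F Ω c := hb2 M ((hAmem M).mp hM)
    choose c hc using h1
    have h2 : (⟨M, hM⟩ : A) = ∑ i, c i • b' i := by
      apply Subtype.ext
      rw [AddSubmonoidClass.coe_finset_sum]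
      conv_lhs => rw [show ((⟨M, hM⟩ : A) : Matrix (Fin N.index) (Fin N.index) Ω) = M from rfl,
        ← b.sum_repr M]
      refine Finset.sum_congr rfl fun i _ => ?_
      rw [hc i, algebraMap_smul]
      rfl
    rw [h2]
    exact Submodule.sum_mem _ fun i _ => Submodule.smul_mem _ _ (Submodule.subset_span ⟨i, rfl⟩)
  let B : Basis (Fin (finrank Ω (Matrix (Fin N.index) (Fin N.index) Ω))) F A := Basis.mk hli hsp
  refine ⟨A, inferInstance, inferInstance, ⟨?_⟩, ?_⟩
  · refine
      { ι := A.val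
        u := u
        ne := ⟨e.symm (QuotientGroup.mk 1)⟩
        dim := ?_
        span := ?_
        lc := hlc
        tw := ?_
        fac := ?_ }
    · rw [finrank_eq_card_basis B, Fintype.card_fin, Module.finrank_matrix, Module.finrank_self, mul_one, sq]
    · rw [eq_top_iff, ← b.span_eq, Submodule.span_le]
      rintro _ ⟨i, rfl⟩
      exact Submodule.subset_span ⟨b' i, rfl⟩
    · intro g a
      have h1 : U g * (a : Matrix (Fin N.index) (Fin N.index) Ω).map g = a * U g := a.2 g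
      rw [mul_assoc]
      change (a : Matrix (Fin N.index) (Fin N.index) Ω).map g = _ * ((a : Matrix (Fin N.index) (Fin N.index) Ω) * U g)
      rw [← h1, ← hu, ← mul_assoc, Units.inv_mul, one_mul]
    · intro g h
      exact hfac g h
  · let D : (IntermediateField.fixedField N) →ₐ[F] Matrix (Fin N.index) (Fin N.index) Ω :=
      (Matrix.diagonalAlgHom F).comp (Pi.algHom F _ (fun i =>
        (((e i).out : Ω ≃ₐ[F] Ω) : Ω →ₐ[F] Ω).comp (IntermediateField.fixedField N).val))
    have hD : ∀ c : (IntermediateField.fixedField N), D c ∈ A := by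
      intro c g
      have h1 : D c = Matrix.diagonal (fun i => (e i).out (c : Ω)) := rfl
      ext i j
      rw [h1, Matrix.diagonal_mul, Matrix.diagonal_map (map_zero g), Matrix.mul_diagonal]
      change Um f N e g i j * _ = _ * Um f N e g i j
      rw [Um_apply]
      by_cases h : e i = g • e j
      · rw [if_pos h, mul_comm, h]
        congr 1
        have h2 : g • e j = (QuotientGroup.mk (g * (e j).out) : (Ω ≃ₐ[F] Ω) ⧸ N) := by
          conv_lhs => rw [← QuotientGroup.out_eq' (e j)]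
          rfl
        rw [h2]
        obtain ⟨m, hm⟩ := QuotientGroup.mk_out_eq_mul N (g * (e j).out)
        rw [hm]
        have h3 : (m : Ω ≃ₐ[F] Ω) (c : Ω) = c := c.2 m
        rw [AlgEquiv.mul_apply, AlgEquiv.mul_apply, h3]
      · rw [if_neg h, mul_zero, zero_mul]
    exact ⟨D.codRestrict A hD⟩

end BR7.H32
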