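import Pool.Agent.Lib.MP_defcf3_al.BR.H32.Desc

/-!
Project BR7, module REPZ: the factor set is a continuous cocycle.
-/

namespace BR7.H32

universe u v

open Module

theorem smul_unit_cancel {Ω : Type u} [Field Ω] {n : Type v} [Fintype n] [DecidableEq n] (hn : Nonempty n)
    (c d : Ω) (U : (Matrix n n Ω)ˣ)
    (h : c • (U : Matrix n n Ω) = d • (U : Matrix n n Ω)) : c = d := by
  obtain ⟨i⟩ := hn
  have h1 := congrArg (fun M : Matrix n n Ω => M * (↑U⁻¹ : Matrix n n Ω)) h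
  simp only [smul_mul_assoc, Units.mul_inv] at h1
  have h2 := congrFun (congrFun h1 i) i
  simpa only [Matrix.smul_apply, Matrix.one_apply_eq, smul_eq_mul, mul_one] using h2

theorem map_mul_map {F Ω : Type u} [Field F] [Field Ω] [Algebra F Ω] {n : Type v} [Fintype n] [DecidableEq n]
    (g : Ω ≃ₐ[F] Ω) (M M' : Matrix n n Ω) : (M * M').map g = M.map g * M'.map g := by
  have := map_mul g.mapMatrix M M'
  simpa only [AlgEquiv.mapMatrix_apply] using this

theorem map_smul_map {F Ω : Type u} [Field F] [Field Ω] [Algebra F Ω] {n : Type v}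
    (g : Ω ≃ₐ[F] Ω) (c : Ω) (M : Matrix n n Ω) : (c • M).map g = g c • M.map g := by
  ext i j
  simp

theorem map_map_map {F Ω : Type u} [Field F] [Field Ω] [Algebra F Ω] {n : Type v}
    (g h : Ω ≃ₐ[F] Ω) (M : Matrix n n Ω) : M.map (g * h) = (M.map h).map g := by
  ext i j
  simp

theorem repz : RepZStatement.{u, v} := by
  intro F Ω _ _ _ _ A _ _ n _ _ f R
  have hne := R.ne
  refine ⟨?_, fun g h k => ?_⟩
  · rw [IsLocallyConstant.iff_eventually_eq]
    intro p0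
    have h1 : ∀ᶠ p : (Ω ≃ₐ[F] Ω) × (Ω ≃ₐ[F] Ω) in nhds p0, R.u p.1 = R.u p0.1 :=
      (R.lc.comp_continuous continuous_fst).eventually_eq p0
    have h2 : ∀ᶠ p : (Ω ≃ₐ[F] Ω) × (Ω ≃ₐ[F] Ω) in nhds p0, R.u p.2 = R.u p0.2 :=
      (R.lc.comp_continuous continuous_snd).eventually_eq p0
    have h3 : ∀ᶠ p : (Ω ≃ₐ[F] Ω) × (Ω ≃ₐ[F] Ω) in nhds p0, R.u (p.1 * p.2) = R.u (p0.1 * p0.2) :=
      (R.lc.comp_continuous continuous_mul).eventually_eq p0
    have h4 : ∀ᶠ p : (Ω ≃ₐ[F] Ω) × (Ω ≃ₐ[F] Ω) in nhds p0,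
        (R.u p0.2 : Matrix n n Ω).map p.1 = (R.u p0.2 : Matrix n n Ω).map p0.1 :=
      ((lc_map (F := F) (R.u p0.2 : Matrix n n Ω)).comp_continuous continuous_fst).eventually_eq p0
    filter_upwards [h1, h2, h3, h4] with p e1 e2 e3 e4
    apply Units.ext
    apply smul_unit_cancel hne _ _ (R.u (p0.1 * p0.2))
    rw [← R.fac p0.1 p0.2, ← e4, ← e1, ← e2, ← e3, R.fac]
  · apply Units.ext
    apply smul_unit_cancel hne _ _ (R.u (g * h * k))
    rw [Units.val_mul, Units.val_mul, mul_smul, mul_smul, ← R.fac (g * h) k, ← smul_mul_assoc,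
      ← R.fac g h, mul_assoc g h k, ← R.fac g (h * k), coe_smul_unit, ← mul_smul_comm, ← map_smul_map,
      ← R.fac h k, map_mul_map, map_map_map, mul_assoc]

end BR7.H32
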