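import Pool.Agent.Lib.MP_defcf3_al.BR.StageI

/-!
Project BR7, module SKONO: Skolem-Noether for spanning embeddings in a matrix algebra.
-/

namespace BR7.H32

universe u v

open Module

theorem span_basis {F Ω A : Type*} [Field F] [Field Ω] [Algebra F Ω] [Ring A] [Algebra F A]
    {n : Type*} [Fintype n] [DecidableEq n] {N : Type*} [Fintype N] (b : Basis N F A)
    (ι : A →+* Matrix n n Ω)
    (hc : ∀ c : F, ι (algebraMap F A c) = Matrix.scalar n (algebraMap F Ω c))
    (hs : Submodule.span Ω (Set.range ι) = ⊤) :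
    ⊤ ≤ Submodule.span Ω (Set.range (fun i => ι (b i))) := by
  rw [← hs, Submodule.span_le]
  rintro _ ⟨a, rfl⟩
  have h1 : a = ∑ i, b.repr a i • b i := (b.sum_repr a).symm
  rw [h1, map_sum]
  refine Submodule.sum_mem _ fun i _ => ?_
  have h2 : ι (b.repr a i • b i) = (algebraMap F Ω (b.repr a i)) • ι (b i) := by
    rw [Algebra.smul_def, map_mul, hc, Matrix.scalar_apply, ← Matrix.smul_eq_diagonal_mul]
  rw [h2]
  exact Submodule.smul_mem _ _ (Submodule.subset_span ⟨i, rfl⟩)

theorem map_repr {F Ω A : Type*} [Field F] [Field Ω] [Algebra F Ω] [Ring A] [Algebra F A]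
    {n : Type*} [Fintype n] [DecidableEq n] {N : Type*} [Fintype N] (b : Basis N F A)
    (ι : A →+* Matrix n n Ω)
    (hc : ∀ c : F, ι (algebraMap F A c) = Matrix.scalar n (algebraMap F Ω c)) (a : A) :
    ι a = ∑ i, (algebraMap F Ω (b.repr a i)) • ι (b i) := by
  conv_lhs => rw [← b.sum_repr a, map_sum]
  refine Finset.sum_congr rfl fun i _ => ?_
  rw [Algebra.smul_def, map_mul, hc, Matrix.scalar_apply, ← Matrix.smul_eq_diagonal_mul]

theorem skono : SkoNoStatement.{u, v} := by
  intro F Ω _ _ _ A _ _ n _ _ hdim hne ι ι' hc hc' hs hs'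
  have hpos : 0 < finrank F A := by
    rw [hdim]; exact pow_pos Fintype.card_pos 2
  haveI : FiniteDimensional F A := Module.finite_of_finrank_pos hpos
  let b := Module.finBasis F A
  have hcard : Fintype.card (Fin (finrank F A)) = finrank Ω (Matrix n n Ω) := by
    rw [Fintype.card_fin, hdim, Module.finrank_matrix, Module.finrank_self, mul_one, sq]
  let B : Basis (Fin (finrank F A)) Ω (Matrix n n Ω) :=
    basisOfTopLeSpanOfCardEqFinrank (fun i => ι (b i)) (span_basis b ι hc hs) hcard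
  let B' : Basis (Fin (finrank F A)) Ω (Matrix n n Ω) :=
    basisOfTopLeSpanOfCardEqFinrank (fun i => ι' (b i)) (span_basis b ι' hc' hs') hcard
  have hB : ∀ i, B i = ι (b i) := fun i => by
    simp only [B, coe_basisOfTopLeSpanOfCardEqFinrank]
  have hB' : ∀ i, B' i = ι' (b i) := fun i => by
    simp only [B', coe_basisOfTopLeSpanOfCardEqFinrank]
  let φ : Matrix n n Ω ≃ₗ[Ω] Matrix n n Ω := B.equiv B' (Equiv.refl _)
  have hφ : ∀ a, φ (ι a) = ι' a := by
    intro a
    rw [map_repr b ι hc a, map_repr b ι' hc' a, map_sum]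
    refine Finset.sum_congr rfl fun i _ => ?_
    rw [map_smul, ← hB, ← hB', Basis.equiv_apply, Equiv.refl_apply]
  have hmul : ∀ x y, φ (x * y) = φ x * φ y := by
    intro x y
    have hx : x ∈ Submodule.span Ω (Set.range ι) := by rw [hs]; trivial
    have hy : y ∈ Submodule.span Ω (Set.range ι) := by rw [hs]; trivial
    induction hx using Submodule.span_induction with
    | mem x hx =>
      obtain ⟨a, rfl⟩ := hx
      induction hy using Submodule.span_induction with
      | mem y hy =>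
        obtain ⟨c, rfl⟩ := hy
        rw [← map_mul, hφ, hφ, hφ, map_mul]
      | zero => simp
      | add y z _ _ h1 h2 => rw [mul_add, map_add, map_add, mul_add, h1, h2]
      | smul c y _ h => rw [mul_smul_comm, map_smul, map_smul, mul_smul_comm, h]
    | zero => simp
    | add y z _ _ h1 h2 => rw [add_mul, map_add, map_add, add_mul, h1, h2]
    | smul c y _ h => rw [smul_mul_assoc, map_smul, map_smul, smul_mul_assoc, h]
  have hone : φ 1 = 1 := by
    have h0 := hφ 1
    rw [map_one ι, map_one ι'] at h0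
    exact h0
  let Φ : Matrix n n Ω ≃ₐ[Ω] Matrix n n Ω := AlgEquiv.ofLinearEquiv φ hone hmul
  let E : Matrix n n Ω ≃ₐ[Ω] Module.End Ω (n → Ω) := Matrix.toLinAlgEquiv'
  obtain ⟨T, hT⟩ := AlgEquiv.eq_linearEquivConjAlgEquiv ((E.symm.trans Φ).trans E)
  have hT' : ∀ x : Matrix n n Ω, E (φ x) = T.toLinearMap ∘ₗ (E x) ∘ₗ T.symm.toLinearMap := by
    intro x
    have h1 := congrArg (fun f : Module.End Ω (n → Ω) ≃ₐ[Ω] Module.End Ω (n → Ω) => f (E x)) hT
    simp only [AlgEquiv.trans_apply, AlgEquiv.symm_apply_apply] at h1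
    have h2 : Φ x = φ x := rfl
    rw [h2] at h1
    rw [h1]
    rfl
  let P : Matrix n n Ω := E.symm (T.toLinearMap : Module.End Ω (n → Ω))
  let Q : Matrix n n Ω := E.symm (T.symm.toLinearMap : Module.End Ω (n → Ω))
  have hPQ : P * Q = 1 := by
    rw [← map_mul]
    have : (T.toLinearMap : Module.End Ω (n → Ω)) * T.symm.toLinearMap = 1 := by
      ext x; simp
    rw [this, map_one]
  have hQP : Q * P = 1 := by
    rw [← map_mul]
    have : (T.symm.toLinearMap : Module.End Ω (n → Ω)) * T.toLinearMap = 1 := by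
      ext x; simp
    rw [this, map_one]
  refine ⟨⟨Q, P, hQP, hPQ⟩, fun a => ?_⟩
  have h3 := hT' (ι a)
  rw [hφ] at h3
  have h4 : ι' a = E.symm (T.toLinearMap ∘ₗ (E (ι a)) ∘ₗ T.symm.toLinearMap) := by
    rw [← h3, AlgEquiv.symm_apply_apply]
  rw [h4]
  have h5 : (T.toLinearMap ∘ₗ (E (ι a)) ∘ₗ T.symm.toLinearMap : Module.End Ω (n → Ω)) =
      (T.toLinearMap : Module.End Ω (n → Ω)) * E (ι a) * T.symm.toLinearMap := by
    rw [mul_assoc]; rfl
  rw [h5, map_mul, map_mul, AlgEquiv.symm_apply_apply]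
  rfl

end BR7.H32
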